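import Pool.Agent.P.MP_b3a239_gt.B.Transfer

open Pool.Agent.P.MP_b3a239_gt Pool.Agent.P.MP_ac4909_gt.B Pool.Agent.P.LB
open scoped Manifold ContDiff

theorem Pool.Agent.Results.MP_b3a239_gt.Smooth.result :
    (∀ L : List (ℕ × ℤ), (∀ x ∈ L, 2 ≤ x.1 ∧ IsCoprime (x.1 : ℤ) x.2) → 2 ≤ L.length →
      (∃ (M : Type) (_ : TopologicalSpace M) (_ : ChartedSpace E3 M) (_ : IsManifold (𝓡 3) ∞ M),
        T2Space M ∧ CompactSpace M ∧ OrientedAtlas M ∧ LensSum M L) ∧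
      ∀ (M : Type) [TopologicalSpace M] [T2Space M] [ChartedSpace E3 M] [IsManifold (𝓡 3) ∞ M],
        LensSum M L →
        Nonempty (KB M ≃ₗ[R] Md (red L)) ∧ NormalSpan (red L) ∧ TorsionKer (red L) ∧
          TorsionKilled (KB M) ∧
          Module.rank R (KB M) = ((L.map fun x => x.1 / 2 + 1).prod : ℕ) ∧
          ¬ TorsionFG (KB M) ∧ ¬ Module.Free R (KB M) ∧
          ∀ i j : Fin L.length, i ≠ j → 3 ≤ (L.get i).1 → 3 ≤ (L.get j).1 → ¬ CyclicSum (KB M)) ∧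
    ∀ (M N : Type) [TopologicalSpace M] [T2Space M] [ChartedSpace E3 M] [IsManifold (𝓡 3) ∞ M]
      [TopologicalSpace N] [T2Space N] [ChartedSpace E3 N] [IsManifold (𝓡 3) ∞ N],
      LensSum M [(3, 1), (3, 1)] ∨ LensSum M [(3, 2), (3, 2)] → LensSum N [(3, 1), (3, 2)] →
        IsEmpty (KB M ≃ₗ[R] KB N) := by
  refine ⟨fun L hL hn => ⟨exists_LensSum fun x hx => (hL x hx).2, fun M _ _ _ _ h =>
    kb_main hL hn h⟩, fun M N _ _ _ _ _ _ _ _ hM hN => ⟨fun e => ?_⟩⟩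
  have c : ∀ x ∈ [((3 : ℕ), (1 : ℤ)), (3, 2)], 2 ≤ x.1 ∧ IsCoprime (x.1 : ℤ) x.2 := by
    simp only [Int.isCoprime_iff_gcd_eq_one]
    decide
  obtain ⟨k⟩ := kb_sk c hN
  rcases hM with h | h
  · obtain ⟨k'⟩ := kb_sk (fun x hx => c x (by simp at hx; simp [hx])) h
    exact main.2.1.false (k'.symm.trans (e.trans k))
  · obtain ⟨k'⟩ := kb_sk (fun x hx => c x (by simp at hx; simp [hx])) h
    exact main.2.2.false (k'.symm.trans (e.trans k))
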